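import Pool.Agent.Lib.MP_610fe3_an.Holo.Dm
import Pool.Agent.Lib.MP_610fe3_an.T6.Final
import Pool.Agent.Lib.MP_610fe3_an.H6N.Mfd

/-!
# `D`-linear Anosov diffeomorphisms: the main theorem
-/

open Set Filter Function Bundle
open scoped Manifold ContDiff Topology

namespace Pool.Agent.Lib.MP610fe3.Holo

open Cf

universe u v w

section Mfd

variable {V : Type v} [NormedAddCommGroup V] [NormedSpace ℝ V] [FiniteDimensional ℝ V]

/-- The derivative of a `C^1` map is bounded. -/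
theorem exists_deriv_bound {M : Type u} [MetricSpace M] [CompactSpace M]
    [ChartedSpace V M] [IsManifold 𝓘(ℝ, V) ∞ M]
    [RiemannianBundle (fun x : M => TangentSpace 𝓘(ℝ, V) x)]
    [IsContinuousRiemannianBundle V (fun x : M => TangentSpace 𝓘(ℝ, V) x)]
    {N : ℕ} (e : M → EuclideanSpace ℝ (Fin N)) (hiso : Isometry e)
    (he : ContMDiff 𝓘(ℝ, V) (𝓡 N) ∞ e)
    (hinj : ∀ x, Injective (mfderiv 𝓘(ℝ, V) (𝓡 N) e x))
    (h : M → M) (hh : ContMDiff 𝓘(ℝ, V) 𝓘(ℝ, V) 1 h) :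
    ∃ B : ℝ, 1 ≤ B ∧ ∀ (n : ℕ) (x : M) (v : TangentSpace 𝓘(ℝ, V) x),
      ‖mfderiv 𝓘(ℝ, V) 𝓘(ℝ, V) (h^[n]) x v‖ ≤ B ^ n * ‖v‖ := by
  obtain ⟨c, C, hc, hC, hnb⟩ := Gen.exists_norm_bounds e he hinj
  obtain ⟨E, hE, hEP, hr⟩ := Gen.exists_emb e hiso he hinj
  subst hE
  obtain ⟨D, hD, hDe⟩ := Gen.exists_hasD E he hinj hr h hh
  obtain ⟨K, hK1, hK⟩ := exists_norm_bound hD.cont
  have hK0 : 0 < K := by linarith
  have key : ∀ (x : M) (v : TangentSpace 𝓘(ℝ, V) x),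
      ‖mfderiv 𝓘(ℝ, V) 𝓘(ℝ, V) h x v‖ ≤ max 1 (K * C / c) * ‖v‖ := by
    intro x v
    have h1 := (hnb (h x) (mfderiv 𝓘(ℝ, V) 𝓘(ℝ, V) h x v)).1
    have h1' := (hnb x v).2
    rw [norm_tangentSpace_vectorSpace] at h1 h1'
    have h4 : ‖D x (mfderiv 𝓘(ℝ, V) (𝓡 N) E.e x v)‖ ≤ K * (C * ‖v‖) := by
      refine (ContinuousLinearMap.le_opNorm _ _).trans ?_
      exact mul_le_mul (hK x) h1' (norm_nonneg _) hK0.le
    rw [hDe x v] at h4
    have h5 : ‖mfderiv 𝓘(ℝ, V) 𝓘(ℝ, V) h x v‖ ≤ K * C / c * ‖v‖ := by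
      have h6 := h1.trans h4
      rw [div_mul_eq_mul_div, le_div_iff₀ hc]
      linarith
    refine h5.trans ?_
    exact mul_le_mul_of_nonneg_right (le_max_right _ _) (norm_nonneg _)
  refine ⟨max 1 (K * C / c), le_max_left _ _, fun n => ?_⟩
  have hB0 : 0 ≤ max 1 (K * C / c) := le_trans zero_le_one (le_max_left _ _)
  induction n with
  | zero =>
    intro x v
    rw [CP.mfderiv_zero, pow_zero, one_mul]
    exact le_rfl
  | succ n ih =>
    intro x v
    rw [CP.mfderiv_succ hh]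
    refine (ih (h x) _).trans ?_
    rw [pow_succ, mul_assoc]
    exact mul_le_mul_of_nonneg_left (key x v) (pow_nonneg hB0 n)

/-- An Anosov diffeomorphism one of whose bundles is zero is transitive. -/
theorem trans_of_zero {M : Type u} [TopologicalSpace M] [CompactSpace M] [T2Space M]
    [ConnectedSpace M] [ChartedSpace V M] [IsManifold 𝓘(ℝ, V) ∞ M]
    [RiemannianBundle (fun x : M => TangentSpace 𝓘(ℝ, V) x)]
    [IsContinuousRiemannianBundle V (fun x : M => TangentSpace 𝓘(ℝ, V) x)]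
    (f : M ≃ₘ^1⟮𝓘(ℝ, V), 𝓘(ℝ, V)⟯ M)
    (Es Eu : ∀ x : M, Submodule ℝ (TangentSpace 𝓘(ℝ, V) x)) (hA : Gen.IsAnosovSplitting f Es Eu)
    (h0 : ∀ x, Module.finrank ℝ (Eu x) = 0) : TopTransitive f := by
  obtain ⟨N, e, he, hemb, hinj⟩ := exists_embedding_euclidean_of_compact (I := 𝓘(ℝ, V)) (M := M)
  let : MetricSpace M := hemb.isEmbedding.comapMetricSpace e
  have hiso : Isometry e := hemb.isEmbedding.to_isometry
  obtain ⟨d, hd⟩ := exists_dim e hiso he hinj f Es Eu hA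
  obtain ⟨B, hB1, hB⟩ := exists_deriv_bound e hiso he hinj f.symm f.symm.contMDiff
  obtain ⟨C, l, hC, hl, hl1, H⟩ := hA.estimate
  have hB0 : 0 < B := by linarith
  have hlog : 0 < -Real.log l := neg_pos.2 (Real.log_neg hl hl1)
  have hexp : ∀ k : ℕ, Real.exp (-(-Real.log l) * k) = l ^ k := by
    intro k
    rw [neg_neg, mul_comm, ← Real.log_pow, Real.exp_log (pow_pos hl k)]
  have hzero : ∀ x, ∀ v ∈ Eu x, v = 0 := by
    intro x v hv
    have hfin : FiniteDimensional ℝ (TangentSpace 𝓘(ℝ, V) x) :=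
      inferInstanceAs (FiniteDimensional ℝ V)
    have h1 : Eu x = ⊥ := Submodule.finrank_eq_zero.1 (h0 x)
    rw [h1] at hv
    exact (Submodule.mem_bot ℝ).1 hv
  refine H6.mfd_local_pinching e hiso he hinj f Es Eu hA hd h0 (C := C) (χs := -Real.log l)
    (χu := -Real.log l) hlog hlog (fun k x v hv => ?_) (fun k x v hv => ?_)
    (fun U _ _ _ _ => ⟨1, -Real.log l, -Real.log l, Real.log B, le_rfl, ?_, ?_, Or.inl ?_,
      Or.inl ?_⟩)
  · rw [hexp]
    exact (H k x).1 v hv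
  · rw [hexp]
    exact (H k x).2 v hv
  · rw [sub_self, zero_mul]
    positivity
  · intro k x _ v hv
    rw [hzero x v hv, map_zero, norm_zero, norm_zero, mul_zero]
  · intro k x _ v hv
    rw [hzero x v hv, map_zero, norm_zero, norm_zero, mul_zero]
  · intro k x _ v _
    have h1 : Real.exp (Real.log B * k) = B ^ k := by
      rw [mul_comm, ← Real.log_pow, Real.exp_log (pow_pos hB0 k)]
    rw [h1, one_mul]
    exact hB k x v

/-- The theorem for an unstable bundle of dimension at most `dim D`. -/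
theorem trans_of_line {D : Type w} [NormedDivisionRing D] [NormedAlgebra ℝ D]
    [FiniteDimensional ℝ D] {M : Type u} [TopologicalSpace M] [CompactSpace M] [T2Space M]
    [ConnectedSpace M] [ChartedSpace V M] [IsManifold 𝓘(ℝ, V) ∞ M]
    [RiemannianBundle (fun x : M => TangentSpace 𝓘(ℝ, V) x)]
    [IsContinuousRiemannianBundle V (fun x : M => TangentSpace 𝓘(ℝ, V) x)]
    (f : M ≃ₘ^1⟮𝓘(ℝ, V), 𝓘(ℝ, V)⟯ M)
    (Es Eu : ∀ x : M, Submodule ℝ (TangentSpace 𝓘(ℝ, V) x)) (hA : Gen.IsAnosovSplitting f Es Eu)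
    (ρ : ∀ x : M, D →ₐ[ℝ] Module.End ℝ (TangentSpace 𝓘(ℝ, V) x)) (hρ : IsInvariantField f ρ)
    {x₀ : M} (hdim : Module.finrank ℝ (Eu x₀) ≤ Module.finrank ℝ D) : TopTransitive f := by
  have hm : IsManifold 𝓘(ℝ, V) 1 M := IsManifold.of_le (m := 1) (n := ∞) (by norm_num)
  obtain ⟨N, e, he, hemb, hinj⟩ := exists_embedding_euclidean_of_compact (I := 𝓘(ℝ, V)) (M := M)
  obtain ⟨B, hB1, hB, d, hd⟩ : ∃ B : ℝ, 1 ≤ B ∧ (∀ (n : ℕ) (x : M)
      (v : TangentSpace 𝓘(ℝ, V) x),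
      ‖mfderiv 𝓘(ℝ, V) 𝓘(ℝ, V) ((⇑f.symm)^[n]) x v‖ ≤ B ^ n * ‖v‖) ∧
      ∃ d : ℕ, ∀ x, Module.finrank ℝ (Eu x) = d := by
    let : MetricSpace M := hemb.isEmbedding.comapMetricSpace e
    have hiso : Isometry e := hemb.isEmbedding.to_isometry
    obtain ⟨B, hB1, hB⟩ := exists_deriv_bound e hiso he hinj f.symm f.symm.contMDiff
    exact ⟨B, hB1, hB, exists_dim e hiso he hinj f.symm Eu Es (IsAnosovSplitting.symm hA)⟩
  obtain ⟨K, hK0, hK⟩ := hρ.exists_bound
  have hF : ∀ (x : M) (a : D), ∀ v ∈ Eu x, ρ x a v ∈ Eu x :=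
    map_Es (IsAnosovSplitting.symm hA) hK0 hK hρ.symm.comm
  rcases Nat.eq_zero_or_pos d with rfl | hd0
  · exact trans_of_zero f Es Eu hA hd
  obtain ⟨C, l, hC, hl, hl1, H⟩ := hA.estimate
  have hB0 : 0 < B := by linarith
  have hlog : 0 < -Real.log l := neg_pos.2 (Real.log_neg hl hl1)
  have hexp : ∀ k : ℕ, Real.exp (-(-Real.log l) * k) = l ^ k := by
    intro k
    rw [neg_neg, mul_comm, ← Real.log_pow, Real.exp_log (pow_pos hl k)]
  have hdim' : ∀ x, Module.finrank ℝ (Eu x) ≤ Module.finrank ℝ D := by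
    intro x
    rw [hd x, ← hd x₀]
    exact hdim
  refine T6.main f Es Eu hA (Or.inl ⟨d, max (max C (K ^ 2)) 1, -Real.log l,
    max (-Real.log l) (Real.log B), -Real.log l, 0, hd0, hd, hlog, le_max_left _ _, hlog,
    le_rfl, ⟨?_, ?_, ?_, ?_⟩, ?_⟩)
  · intro n x v hv
    rw [hexp]
    refine ((H n x).1 v hv).trans ?_
    have h1 : C ≤ max (max C (K ^ 2)) 1 := (le_max_left _ _).trans (le_max_left _ _)
    have h2 : 0 ≤ l ^ n := pow_nonneg hl.le n
    gcongr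
  · intro n x v hv
    have h1 : B ^ n = Real.exp (Real.log B * n) := by
      rw [mul_comm, ← Real.log_pow, Real.exp_log (pow_pos hB0 n)]
    have h2 : Real.exp (Real.log B * n) ≤
        Real.exp (max (-Real.log l) (Real.log B) * n) := by
      refine Real.exp_le_exp.2 ?_
      exact mul_le_mul_of_nonneg_right (le_max_right _ _) (Nat.cast_nonneg n)
    have h3 : (1 : ℝ) ≤ max (max C (K ^ 2)) 1 := le_max_right _ _
    calc ‖mfderiv 𝓘(ℝ, V) 𝓘(ℝ, V) ((⇑f.symm)^[n]) x v‖ ≤ B ^ n * ‖v‖ := hB n x v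
      _ = 1 * Real.exp (Real.log B * n) * ‖v‖ := by rw [h1, one_mul]
      _ ≤ max (max C (K ^ 2)) 1 * Real.exp (max (-Real.log l) (Real.log B) * n) * ‖v‖ := by
          gcongr
  · intro n x v hv
    rw [hexp]
    refine ((H n x).2 v hv).trans ?_
    have h1 : C ≤ max (max C (K ^ 2)) 1 := (le_max_left _ _).trans (le_max_left _ _)
    have h2 : 0 ≤ l ^ n := pow_nonneg hl.le n
    gcongr
  · intro n x v hv w hw
    rw [zero_mul, Real.exp_zero, mul_one]
    refine (conf_line hK0 hK hρ.comm hF hdim' n x v hv w hw).trans ?_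
    have h1 : K ^ 2 ≤ max (max C (K ^ 2)) 1 := (le_max_right _ _).trans (le_max_left _ _)
    gcongr
  · rw [mul_zero, zero_mul]
    exact mul_pos hlog hlog

/-- **Main theorem.** -/
theorem main {D : Type w} [NormedDivisionRing D] [NormedAlgebra ℝ D]
    [FiniteDimensional ℝ D] {M : Type u} [TopologicalSpace M] [CompactSpace M] [T2Space M]
    [ConnectedSpace M] [ChartedSpace V M] [IsManifold 𝓘(ℝ, V) ∞ M]
    [RiemannianBundle (fun x : M => TangentSpace 𝓘(ℝ, V) x)]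
    [IsContinuousRiemannianBundle V (fun x : M => TangentSpace 𝓘(ℝ, V) x)]
    (f : M ≃ₘ^1⟮𝓘(ℝ, V), 𝓘(ℝ, V)⟯ M)
    (Es Eu : ∀ x : M, Submodule ℝ (TangentSpace 𝓘(ℝ, V) x)) (hA : Gen.IsAnosovSplitting f Es Eu)
    (ρ : ∀ x : M, D →ₐ[ℝ] Module.End ℝ (TangentSpace 𝓘(ℝ, V) x)) (hρ : IsInvariantField f ρ)
    (hdim : Module.finrank ℝ V < 4 * Module.finrank ℝ D ∨
      ∃ x, Module.finrank ℝ (Es x) ≤ Module.finrank ℝ D ∨
        Module.finrank ℝ (Eu x) ≤ Module.finrank ℝ D) : TopTransitive f := by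
  have hm : IsManifold 𝓘(ℝ, V) 1 M := IsManifold.of_le (m := 1) (n := ∞) (by norm_num)
  obtain ⟨x, hx⟩ : ∃ x, Module.finrank ℝ (Es x) ≤ Module.finrank ℝ D ∨
      Module.finrank ℝ (Eu x) ≤ Module.finrank ℝ D := by
    rcases hdim with hdim | hdim
    · obtain ⟨x⟩ : Nonempty M := inferInstance
      refine ⟨x, ?_⟩
      obtain ⟨K, hK0, hK⟩ := hρ.exists_bound
      have hS : ∀ (x : M) (a : D), ∀ v ∈ Es x, ρ x a v ∈ Es x := map_Es hA hK0 hK hρ.comm
      have hU : ∀ (x : M) (a : D), ∀ v ∈ Eu x, ρ x a v ∈ Eu x :=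
        map_Es (IsAnosovSplitting.symm hA) hK0 hK hρ.symm.comm
      have hfin : FiniteDimensional ℝ (TangentSpace 𝓘(ℝ, V) x) :=
        inferInstanceAs (FiniteDimensional ℝ V)
      obtain ⟨s, hs⟩ := finrank_dvd (restr (ρ x) (Es x) (hS x))
      obtain ⟨u, hu⟩ := finrank_dvd (restr (ρ x) (Eu x) (hU x))
      have h3 : Module.finrank ℝ (Es x) + Module.finrank ℝ (Eu x) = Module.finrank ℝ V :=
        finrank_compl_aux (hA.isCompl x) ‹FiniteDimensional ℝ V›
      by_contra hcon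
      push Not at hcon
      obtain ⟨h4, h5⟩ := hcon
      rw [hs] at h4 h3
      rw [hu] at h5 h3
      have h6 : 2 ≤ s := by
        by_contra h
        have : s ≤ 1 := by omega
        have := Nat.mul_le_mul_left (Module.finrank ℝ D) this
        omega
      have h7 : 2 ≤ u := by
        by_contra h
        have : u ≤ 1 := by omega
        have := Nat.mul_le_mul_left (Module.finrank ℝ D) this
        omega
      have h8 := Nat.mul_le_mul_left (Module.finrank ℝ D) h6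
      have h9 := Nat.mul_le_mul_left (Module.finrank ℝ D) h7
      omega
    · exact hdim
  rcases hx with hx | hx
  · exact topTransitive_symm f.toHomeomorph (trans_of_line f.symm Eu Es
      (IsAnosovSplitting.symm hA) ρ hρ.symm hx)
  · exact trans_of_line f Es Eu hA ρ hρ hx

end Mfd

end Pool.Agent.Lib.MP610fe3.Holo
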