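import Mathlib

/-!
# Fields of modules over a division algebra on the tangent spaces: definitions
-/

open Set Filter Function Bundle
open scoped Manifold ContDiff Topology

namespace Pool.Agent.Lib.MP610fe3.Holo

variable {D : Type*} [NormedDivisionRing D] [NormedAlgebra ℝ D]
  {V : Type*} [NormedAddCommGroup V] [NormedSpace ℝ V]
  {M : Type*} [TopologicalSpace M] [ChartedSpace V M]
  [RiemannianBundle (fun x : M => TangentSpace 𝓘(ℝ, V) x)]

/-- `ρ` is a field of `D`-module structures on the tangent spaces of `M` (the vector `ρ x a v` is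
the product of `a : D` and the tangent vector `v` at `x`) which is locally bounded and invariant
under `f`: the derivative of `f` is `D`-linear. -/
structure IsInvariantField (f : M → M)
    (ρ : ∀ x : M, D →ₐ[ℝ] Module.End ℝ (TangentSpace 𝓘(ℝ, V) x)) : Prop where
  bounded : ∀ x : M, ∃ K : ℝ, ∀ᶠ y in 𝓝 x, ∀ (a : D) (v : TangentSpace 𝓘(ℝ, V) y),
    ‖ρ y a v‖ ≤ K * ‖a‖ * ‖v‖
  comm : ∀ (x : M) (a : D) (v : TangentSpace 𝓘(ℝ, V) x),
    mfderiv 𝓘(ℝ, V) 𝓘(ℝ, V) f x (ρ x a v) = ρ (f x) a (mfderiv 𝓘(ℝ, V) 𝓘(ℝ, V) f x v)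

end Pool.Agent.Lib.MP610fe3.Holo
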