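import Pool.Agent.Lib.MP_610fe3_an.Holo.Defs
import Pool.Agent.Lib.MP_610fe3_an.Cf.ConfPin
import Pool.Agent.Lib.MP_610fe3_an.Cf.Main4

/-!
# `D`-linear Anosov diffeomorphisms: the invariant bundles
-/

open Set Filter Function Bundle
open scoped Manifold ContDiff Topology

namespace Pool.Agent.Lib.MP610fe3.Holo

open Cf

universe u v w

section Lin

variable {D : Type w} [NormedDivisionRing D] [NormedAlgebra ℝ D]
  {T : Type v} [AddCommGroup T] [Module ℝ T]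

/-- The module structure on an invariant subspace. -/
noncomputable def restr (ρ : D →ₐ[ℝ] Module.End ℝ T) (F : Submodule ℝ T)
    (hF : ∀ a, ∀ v ∈ F, ρ a v ∈ F) : D →ₐ[ℝ] Module.End ℝ F where
  toFun a := (ρ a).restrict (hF a)
  map_one' := by ext v; simp
  map_mul' a b := by ext v; simp
  map_zero' := by ext v; simp
  map_add' a b := by ext v; simp
  commutes' r := by ext v; simp

theorem finrank_dvd [FiniteDimensional ℝ D] [FiniteDimensional ℝ T] (ρ : D →ₐ[ℝ] Module.End ℝ T) :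
    Module.finrank ℝ D ∣ Module.finrank ℝ T := by
  let _ : Module D T := Module.compHom T (ρ : D →+* Module.End ℝ T)
  have h1 : ∀ (a : D) (v : T), a • v = ρ a v := fun a v => rfl
  have : IsScalarTower ℝ D T := ⟨fun r a v => by rw [h1, h1, map_smul]; rfl⟩
  exact ⟨_, (Module.finrank_mul_finrank ℝ D T).symm⟩

theorem apply_injective (ρ : D →ₐ[ℝ] Module.End ℝ T) {w : T} (hw : w ≠ 0) :
    Injective (fun a : D => ρ a w) := by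
  intro a b hab
  by_contra hne
  have hne' : a - b ≠ 0 := sub_ne_zero.2 hne
  have h1 : ρ (a - b) w = 0 := by
    rw [map_sub, LinearMap.sub_apply]
    exact sub_eq_zero.2 hab
  have h2 : ρ (a - b)⁻¹ (ρ (a - b) w) = w := by
    rw [← Module.End.mul_apply, ← map_mul, inv_mul_cancel₀ hne', map_one, Module.End.one_apply]
  rw [h1, map_zero] at h2
  exact hw h2.symm

theorem exists_apply_eq [FiniteDimensional ℝ D] [FiniteDimensional ℝ T]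
    (ρ : D →ₐ[ℝ] Module.End ℝ T) (hT : Module.finrank ℝ T ≤ Module.finrank ℝ D) {w : T}
    (hw : w ≠ 0) (v : T) : ∃ a : D, ρ a w = v := by
  let L : D →ₗ[ℝ] T := (LinearMap.applyₗ w).comp ρ.toLinearMap
  have hL : ∀ a, L a = ρ a w := fun a => rfl
  have hinj : Injective L := apply_injective ρ hw
  have hle := LinearMap.finrank_le_finrank_of_injective hinj
  have hs : Surjective L :=
    (LinearMap.injective_iff_surjective_of_finrank_eq_finrank (le_antisymm hle hT)).1 hinj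
  obtain ⟨a, ha⟩ := hs v
  exact ⟨a, ha⟩

end Lin

section Mfd

variable {D : Type w} [NormedDivisionRing D] [NormedAlgebra ℝ D]
  {V : Type v} [NormedAddCommGroup V] [NormedSpace ℝ V]
  {M : Type u} [TopologicalSpace M] [ChartedSpace V M]
  [RiemannianBundle (fun x : M => TangentSpace 𝓘(ℝ, V) x)]
  {ρ : ∀ x : M, D →ₐ[ℝ] Module.End ℝ (TangentSpace 𝓘(ℝ, V) x)}

/-- The uniform bound. -/
theorem IsInvariantField.exists_bound [CompactSpace M] {f : M → M} (h : IsInvariantField f ρ) :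
    ∃ K : ℝ, 0 < K ∧ ∀ (y : M) (a : D) (v : TangentSpace 𝓘(ℝ, V) y),
      ‖ρ y a v‖ ≤ K * ‖a‖ * ‖v‖ := by
  have key : ∀ s : Set M, IsCompact s → ∃ K : ℝ, 0 < K ∧ ∀ y ∈ s, ∀ (a : D)
      (v : TangentSpace 𝓘(ℝ, V) y), ‖ρ y a v‖ ≤ K * ‖a‖ * ‖v‖ := by
    intro s hs
    refine hs.induction_on (p := fun s => ∃ K : ℝ, 0 < K ∧ ∀ y ∈ s, ∀ (a : D)
      (v : TangentSpace 𝓘(ℝ, V) y), ‖ρ y a v‖ ≤ K * ‖a‖ * ‖v‖) ?_ ?_ ?_ ?_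
    · exact ⟨1, one_pos, by simp⟩
    · rintro s t hst ⟨K, hK, h⟩
      exact ⟨K, hK, fun y hy => h y (hst hy)⟩
    · rintro s t ⟨K, hK, h⟩ ⟨K', hK', h'⟩
      refine ⟨max K K', lt_max_of_lt_left hK, ?_⟩
      rintro y (hy | hy) a v
      · refine (h y hy a v).trans ?_
        have := le_max_left K K'
        gcongr
      · refine (h' y hy a v).trans ?_
        have := le_max_right K K'
        gcongr
    · intro x _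
      obtain ⟨K, hK⟩ := h.bounded x
      refine ⟨{y | ∀ (a : D) (v : TangentSpace 𝓘(ℝ, V) y), ‖ρ y a v‖ ≤ K * ‖a‖ * ‖v‖},
        mem_nhdsWithin_of_mem_nhds hK, max K 1, lt_max_of_lt_right one_pos, ?_⟩
      intro y hy a v
      refine (hy a v).trans ?_
      have := le_max_left K 1
      gcongr
  obtain ⟨K, hK, h⟩ := key univ isCompact_univ
  exact ⟨K, hK, fun y => h y (mem_univ y)⟩

/-- The derivatives of the iterates are `D`-linear. -/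
theorem comm_iter {f : M → M} (hf : ContMDiff 𝓘(ℝ, V) 𝓘(ℝ, V) 1 f)
    (hc : ∀ (x : M) (a : D) (v : TangentSpace 𝓘(ℝ, V) x),
      mfderiv 𝓘(ℝ, V) 𝓘(ℝ, V) f x (ρ x a v) = ρ (f x) a (mfderiv 𝓘(ℝ, V) 𝓘(ℝ, V) f x v))
    (n : ℕ) (x : M) (a : D) (v : TangentSpace 𝓘(ℝ, V) x) :
    mfderiv 𝓘(ℝ, V) 𝓘(ℝ, V) (f^[n]) x (ρ x a v) =
      ρ (f^[n] x) a (mfderiv 𝓘(ℝ, V) 𝓘(ℝ, V) (f^[n]) x v) := by
  induction n generalizing x with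
  | zero =>
    rw [CP.mfderiv_zero, CP.mfderiv_zero]
    rfl
  | succ n ih =>
    rw [CP.mfderiv_succ hf, CP.mfderiv_succ hf, hc]
    exact ih (f x) _

/-- The stable bundle is a `D`-subbundle. -/
theorem map_Es {f : M ≃ₘ^1⟮𝓘(ℝ, V), 𝓘(ℝ, V)⟯ M}
    {Es Eu : ∀ x : M, Submodule ℝ (TangentSpace 𝓘(ℝ, V) x)}
    (hA : Gen.IsAnosovSplitting f Es Eu) {K : ℝ} (hK0 : 0 < K)
    (hK : ∀ (y : M) (a : D) (v : TangentSpace 𝓘(ℝ, V) y), ‖ρ y a v‖ ≤ K * ‖a‖ * ‖v‖)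
    (hc : ∀ (x : M) (a : D) (v : TangentSpace 𝓘(ℝ, V) x),
      mfderiv 𝓘(ℝ, V) 𝓘(ℝ, V) f x (ρ x a v) = ρ (f x) a (mfderiv 𝓘(ℝ, V) 𝓘(ℝ, V) f x v))
    (x : M) (d : D) (v : TangentSpace 𝓘(ℝ, V) x) (hv : v ∈ Es x) : ρ x d v ∈ Es x := by
  obtain ⟨c, hc0, hc1, hex⟩ := CP.exists_expand hA
  obtain ⟨C, l, hC, hl, hl1, H⟩ := hA.estimate
  obtain ⟨a, ha, b, hb, hab⟩ : ∃ a ∈ Es x, ∃ b ∈ Eu x, a + b = ρ x d v := by
    have h1 : ρ x d v ∈ Es x ⊔ Eu x := by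
      rw [(hA.isCompl x).sup_eq_top]
      trivial
    obtain ⟨a, ha, b, hb, hab⟩ := Submodule.mem_sup.1 h1
    exact ⟨a, ha, b, hb, hab⟩
  have key : ∀ n : ℕ, c * ‖b‖ ≤ C * l ^ n * (K * ‖d‖ * ‖v‖ + ‖a‖) := by
    intro n
    have h1 := hex n x b hb
    have h2 : ‖mfderiv 𝓘(ℝ, V) 𝓘(ℝ, V) (f^[n]) x (ρ x d v)‖ ≤
        K * ‖d‖ * ‖mfderiv 𝓘(ℝ, V) 𝓘(ℝ, V) (f^[n]) x v‖ := by
      rw [comm_iter f.contMDiff hc n x d v]
      exact hK _ _ _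
    have h3 := (H n x).1 v hv
    have h4 := (H n x).1 a ha
    have h5 : mfderiv 𝓘(ℝ, V) 𝓘(ℝ, V) (f^[n]) x b =
        mfderiv 𝓘(ℝ, V) 𝓘(ℝ, V) (f^[n]) x (ρ x d v) - mfderiv 𝓘(ℝ, V) 𝓘(ℝ, V) (f^[n]) x a := by
      rw [← hab, map_add]
      abel
    have h6 : ‖mfderiv 𝓘(ℝ, V) 𝓘(ℝ, V) (f^[n]) x b‖ ≤
        ‖mfderiv 𝓘(ℝ, V) 𝓘(ℝ, V) (f^[n]) x (ρ x d v)‖ +
        ‖mfderiv 𝓘(ℝ, V) 𝓘(ℝ, V) (f^[n]) x a‖ := by
      rw [h5]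
      exact norm_sub_le _ _
    have h7 : K * ‖d‖ * ‖mfderiv 𝓘(ℝ, V) 𝓘(ℝ, V) (f^[n]) x v‖ ≤
        K * ‖d‖ * (C * l ^ n * ‖v‖) := by gcongr
    linarith
  have hlim : Tendsto (fun n : ℕ => C * l ^ n * (K * ‖d‖ * ‖v‖ + ‖a‖)) atTop (𝓝 0) := by
    have h1 := tendsto_pow_atTop_nhds_zero_of_lt_one hl.le hl1
    have h2 := (h1.const_mul C).mul_const (K * ‖d‖ * ‖v‖ + ‖a‖)
    simpa using h2
  have h1 : c * ‖b‖ ≤ 0 := ge_of_tendsto' hlim key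
  have h2 : ‖b‖ ≤ 0 := by
    by_contra h
    push Not at h
    have := mul_pos hc0 h
    linarith
  have h3 : b = 0 := norm_le_zero_iff.1 h2
  rw [← hab, h3, add_zero]
  exact ha

omit [RiemannianBundle (fun x : M => TangentSpace 𝓘(ℝ, V) x)] in
theorem rho_transport (ρ : ∀ x : M, D →ₐ[ℝ] Module.End ℝ (TangentSpace 𝓘(ℝ, V) x)) (a : D)
    {x x' : M} (h : x' = x) (v : V) :
    (show V from ρ x' a (show TangentSpace 𝓘(ℝ, V) x' from v)) =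
      (show V from ρ x a (show TangentSpace 𝓘(ℝ, V) x from v)) := by
  subst h; rfl

omit [RiemannianBundle (fun x : M => TangentSpace 𝓘(ℝ, V) x)] in
theorem comm_symm [IsManifold 𝓘(ℝ, V) 1 M] {f : M ≃ₘ^1⟮𝓘(ℝ, V), 𝓘(ℝ, V)⟯ M}
    (hc : ∀ (x : M) (a : D) (v : TangentSpace 𝓘(ℝ, V) x),
      mfderiv 𝓘(ℝ, V) 𝓘(ℝ, V) f x (ρ x a v) = ρ (f x) a (mfderiv 𝓘(ℝ, V) 𝓘(ℝ, V) f x v))
    (y : M) (a : D) (w : TangentSpace 𝓘(ℝ, V) y) :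
    mfderiv 𝓘(ℝ, V) 𝓘(ℝ, V) f.symm y (ρ y a w) =
      ρ (f.symm y) a (mfderiv 𝓘(ℝ, V) 𝓘(ℝ, V) f.symm y w) := by
  obtain ⟨x, rfl⟩ : ∃ x, f x = y := ⟨f.symm y, f.apply_symm_apply y⟩
  obtain ⟨u, rfl⟩ : ∃ u : TangentSpace 𝓘(ℝ, V) x, mfderiv 𝓘(ℝ, V) 𝓘(ℝ, V) f x u = w := by
    have h1 := mfderiv_symm_apply f.symm (f x) (show V from w)
    refine ⟨(show TangentSpace 𝓘(ℝ, V) x from
      (mfderiv 𝓘(ℝ, V) 𝓘(ℝ, V) f.symm (f x) w)), ?_⟩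
    have h2 : ∀ x' : M, x' = x → ∀ z : V,
      (show V from mfderiv 𝓘(ℝ, V) 𝓘(ℝ, V) f x' (show TangentSpace 𝓘(ℝ, V) x' from z)) =
      (show V from mfderiv 𝓘(ℝ, V) 𝓘(ℝ, V) f x (show TangentSpace 𝓘(ℝ, V) x from z)) := by
      rintro x' rfl z
      rfl
    exact (h2 (f.symm (f x)) (f.symm_apply_apply x) _).symm.trans h1
  have h1 := mfderiv_symm_apply f x (show V from u)
  have h2 := mfderiv_symm_apply f x (show V from ρ x a u)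
  rw [← hc]
  refine Eq.trans h2 ?_
  refine Eq.trans ?_ (rho_transport ρ a (f.symm_apply_apply x) _).symm
  exact congrArg (fun z : V => (show V from ρ x a (show TangentSpace 𝓘(ℝ, V) x from z))) h1.symm

theorem IsInvariantField.symm [IsManifold 𝓘(ℝ, V) 1 M] {f : M ≃ₘ^1⟮𝓘(ℝ, V), 𝓘(ℝ, V)⟯ M}
    (h : IsInvariantField f ρ) : IsInvariantField f.symm ρ :=
  ⟨h.bounded, comm_symm h.comm⟩

/-- Conformality on `D`-lines. -/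
theorem conf_line [FiniteDimensional ℝ D] [FiniteDimensional ℝ V]
    {f : M ≃ₘ^1⟮𝓘(ℝ, V), 𝓘(ℝ, V)⟯ M}
    {F : ∀ x : M, Submodule ℝ (TangentSpace 𝓘(ℝ, V) x)} {K : ℝ} (hK0 : 0 < K)
    (hK : ∀ (y : M) (a : D) (v : TangentSpace 𝓘(ℝ, V) y), ‖ρ y a v‖ ≤ K * ‖a‖ * ‖v‖)
    (hc : ∀ (x : M) (a : D) (v : TangentSpace 𝓘(ℝ, V) x),
      mfderiv 𝓘(ℝ, V) 𝓘(ℝ, V) f x (ρ x a v) = ρ (f x) a (mfderiv 𝓘(ℝ, V) 𝓘(ℝ, V) f x v))
    (hF : ∀ (x : M) (a : D), ∀ v ∈ F x, ρ x a v ∈ F x)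
    (hdim : ∀ x, Module.finrank ℝ (F x) ≤ Module.finrank ℝ D) (n : ℕ) (x : M)
    (v : TangentSpace 𝓘(ℝ, V) x) (hv : v ∈ F x) (w : TangentSpace 𝓘(ℝ, V) x) (hw : w ∈ F x) :
    ‖mfderiv 𝓘(ℝ, V) 𝓘(ℝ, V) (f^[n]) x v‖ * ‖w‖ ≤
      K ^ 2 * ‖mfderiv 𝓘(ℝ, V) 𝓘(ℝ, V) (f^[n]) x w‖ * ‖v‖ := by
  have hfin : FiniteDimensional ℝ (TangentSpace 𝓘(ℝ, V) x) :=
    inferInstanceAs (FiniteDimensional ℝ V)
  rcases eq_or_ne w 0 with rfl | hw0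
  · rw [norm_zero, mul_zero]
    positivity
  have hw0' : (⟨w, hw⟩ : F x) ≠ 0 := fun h => hw0 (congrArg Subtype.val h)
  obtain ⟨a, ha⟩ := exists_apply_eq (restr (ρ x) (F x) (hF x)) (hdim x) hw0' ⟨v, hv⟩
  have ha' : ρ x a w = v := congrArg Subtype.val ha
  rcases eq_or_ne a 0 with rfl | ha0
  · have hv0 : v = 0 := by rw [← ha', map_zero, LinearMap.zero_apply]
    rw [hv0, map_zero, norm_zero, norm_zero, zero_mul, mul_zero]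
  have h1 : ‖mfderiv 𝓘(ℝ, V) 𝓘(ℝ, V) (f^[n]) x v‖ ≤
      K * ‖a‖ * ‖mfderiv 𝓘(ℝ, V) 𝓘(ℝ, V) (f^[n]) x w‖ := by
    rw [← ha', comm_iter f.contMDiff hc n x a w]
    exact hK _ _ _
  have h2 : ‖w‖ ≤ K * ‖a‖⁻¹ * ‖v‖ := by
    have h3 : ρ x a⁻¹ v = w := by
      rw [← ha', ← Module.End.mul_apply, ← map_mul, inv_mul_cancel₀ ha0, map_one,
        Module.End.one_apply]
    have h4 := hK x a⁻¹ v
    rw [h3, norm_inv] at h4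
    exact h4
  have ha1 : 0 < ‖a‖ := norm_pos_iff.2 ha0
  calc ‖mfderiv 𝓘(ℝ, V) 𝓘(ℝ, V) (f^[n]) x v‖ * ‖w‖
      ≤ (K * ‖a‖ * ‖mfderiv 𝓘(ℝ, V) 𝓘(ℝ, V) (f^[n]) x w‖) * (K * ‖a‖⁻¹ * ‖v‖) :=
        mul_le_mul h1 h2 (norm_nonneg _) (by positivity)
    _ = K ^ 2 * ‖mfderiv 𝓘(ℝ, V) 𝓘(ℝ, V) (f^[n]) x w‖ * ‖v‖ * (‖a‖ * ‖a‖⁻¹) := by ring
    _ = _ := by rw [mul_inv_cancel₀ ha1.ne', mul_one]

end Mfd

end Pool.Agent.Lib.MP610fe3.Holo
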